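import Mathlib

set_option autoImplicit false
open FirstOrder FirstOrder.Language

namespace Pool.Agent.Results.MP_735cdd_lc.NotAleph1Hom

universe u

/-- Function symbols of the language of groups. -/
inductive GrpFn : ℕ → Type
  | one : GrpFn 0
  | inv : GrpFn 1
  | mul : GrpFn 2

/-- The first-order language of groups. -/
def Lgrp : FirstOrder.Language.{0, 0} := ⟨GrpFn, fun _ => Empty⟩

/-- A group as a structure in the language of groups. -/
instance grpStructure (G : Type u) [Group G] : Lgrp.Structure G where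
  funMap := fun {_} f => match f with
    | GrpFn.one => fun _ => 1
    | GrpFn.inv => fun x => (x 0)⁻¹
    | GrpFn.mul => fun x => x 0 * x 1
  RelMap := fun r => Empty.elim r

/-- A partial map `f : A → G` is elementary: it preserves all first-order formulas of the language
of groups, evaluated at finite tuples of elements of `A`. -/
def IsElementary (G : Type u) [Group G] (A : Set G) (f : A → G) : Prop :=
  ∀ (n : ℕ) (φ : Lgrp.Formula (Fin n)) (a : Fin n → A),
    φ.Realize (fun i => (a i : G)) ↔ φ.Realize (fun i => f (a i))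

/-- The partial map `f` together with the pair `(c, d)` is elementary. -/
def IsElementaryWith (G : Type u) [Group G] (A : Set G) (f : A → G) (c d : G) : Prop :=
  ∀ (n : ℕ) (φ : Lgrp.Formula (Fin (n + 1))) (a : Fin n → A),
    φ.Realize (Fin.cons c (fun i => (a i : G)) : Fin (n + 1) → G) ↔
      φ.Realize (Fin.cons d (fun i => f (a i)) : Fin (n + 1) → G)

/-- `κ`-homogeneity: every elementary map `f : A → G` with `|A| < κ` and every `c : G` admit some
`d : G` with `f ∪ {(c, d)}` elementary. -/
def IsHomogeneousCard (G : Type u) [Group G] (κ : Cardinal.{u}) : Prop :=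
  ∀ (A : Set G), Cardinal.mk A < κ → ∀ f : A → G, IsElementary G A f →
    ∀ c : G, ∃ d : G, IsElementaryWith G A f c d

/-- `G` is relatively free with free basis `X`: `X` generates `G` and every map `X → G` extends
to an endomorphism of `G`. -/
def IsRelFreeBasis (G : Type u) [Group G] (X : Set G) : Prop :=
  Subgroup.closure X = ⊤ ∧ ∀ f : X → G, ∃ φ : G →* G, ∀ x : X, φ x = f x

/-- The word `c₀ (c₁ (... (c_{n-1} y²)² ...)²)²`. -/
def nest {G : Type u} [Group G] (c : ℕ → G) : ℕ → G → G
  | 0, y => y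
  | n + 1, y => nest c n (c n * (y * y))

/-- The product of two terms. -/
def tmul {α : Type} (s t : Lgrp.Term α) : Lgrp.Term α :=
  Term.func (L := Lgrp) (l := 2) GrpFn.mul ![s, t]

theorem realize_tmul {G : Type u} [Group G] {α : Type} (s t : Lgrp.Term α) (v : α → G) :
    (tmul s t).realize v = s.realize v * t.realize v := rfl

/-- The term for `nest`. -/
def tnest {α : Type} (c : ℕ → Lgrp.Term α) : ℕ → Lgrp.Term α → Lgrp.Term α
  | 0, y => y
  | n + 1, y => tnest c n (tmul (c n) (tmul y y))

theorem realize_tnest {G : Type u} [Group G] {α : Type} (c : ℕ → Lgrp.Term α) (n : ℕ)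
    (y : Lgrp.Term α) (v : α → G) :
    (tnest c n y).realize v = nest (fun i => (c i).realize v) n (y.realize v) := by
  induction n generalizing y with
  | zero => rfl
  | succ n ih => simp only [tnest, nest, ih, realize_tmul]

theorem nest_congr {G : Type u} [Group G] (c c' : ℕ → G) (n : ℕ) (h : ∀ i < n, c i = c' i)
    (y : G) : nest c n y = nest c' n y := by
  induction n generalizing y with
  | zero => rfl
  | succ n ih =>
    simp only [nest]
    rw [ih (fun i hi => h i (by omega)), h n (by omega)]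

theorem map_nest {G H : Type u} [Group G] [Group H] (π : G →* H) (c : ℕ → G) (n : ℕ) (y : G) :
    π (nest c n y) = nest (fun i => π (c i)) n (π y) := by
  induction n generalizing y with
  | zero => rfl
  | succ n ih => simp only [nest, ih, map_mul]

theorem nest_one {G : Type u} [Group G] (c : ℕ → G) (n : ℕ) (h : ∀ i < n, c i = 1) (y : G) :
    nest c n y = y ^ 2 ^ n := by
  induction n generalizing y with
  | zero => simp [nest]
  | succ n ih =>
    simp only [nest]
    rw [ih (fun i hi => h i (by omega)), h n (by omega), one_mul, ← pow_two, ← pow_mul, pow_succ']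

/-- The formula saying that the first variable has the form `nest` of the others. -/
def psi (n : ℕ) : Lgrp.Formula (Fin (n + 1)) :=
  BoundedFormula.ex (Term.bdEqual (Term.var (Sum.inl 0))
    (tnest (fun i => if h : i < n then Term.var (Sum.inl (Fin.succ ⟨i, h⟩)) else
      Term.var (Sum.inr 0)) n (Term.var (Sum.inr 0))))

theorem realize_psi {G : Type u} [Group G] (n : ℕ) (e : G) (c : ℕ → G) :
    (psi n).Realize (Fin.cons e (fun i : Fin n => c i) : Fin (n + 1) → G) ↔
      ∃ y, e = nest c n y := by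
  unfold psi Formula.Realize
  rw [BoundedFormula.realize_ex]
  apply exists_congr
  intro y
  rw [BoundedFormula.realize_bdEqual, realize_tnest]
  simp only [Term.realize_var, Sum.elim_inl, Fin.cons_zero, Sum.elim_inr]
  have h2 : (Fin.snoc (default : Fin 0 → G) y : Fin 1 → G) 0 = y := by
    simp [Fin.snoc]
  rw [h2]
  apply Eq.congr_right
  apply nest_congr
  intro i hi
  simp only [hi, dif_pos, Term.realize_var, Sum.elim_inl]
  rfl

section main

variable {G : Type u} [Group G]

/-- Automorphisms preserve formulas. -/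
theorem realize_auto (σ : G ≃* G) {n : ℕ} (φ : Lgrp.Formula (Fin n)) (v : Fin n → G) :
    φ.Realize v ↔ φ.Realize (fun i => σ (v i)) := by
  let e : Lgrp.Equiv G G :=
    { toEquiv := σ.toEquiv
      map_fun' := by
        intro n f x
        cases f with
        | one => exact map_one σ
        | inv => exact map_inv σ _
        | mul => exact map_mul σ _ _
      map_rel' := fun r => Empty.elim r }
  exact (StrongHomClass.realize_formula e φ).symm

theorem ext_hom {X : Set G} (hX : Subgroup.closure X = ⊤) (f g : G →* G)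
    (h : ∀ x ∈ X, f x = g x) : f = g :=
  MonoidHom.eq_of_eqOn_dense hX h

/-- The transvection `x i ↦ x i * (x (i+1) * x (i+1))⁻¹`. -/
theorem exists_tau {X : Set G} (hX : IsRelFreeBasis G X) (x : ℕ → G) (hx : ∀ i, x i ∈ X)
    (hinj : Function.Injective x) (i : ℕ) :
    ∃ τ : G ≃* G, τ (x i) = x i * (x (i + 1) * x (i + 1))⁻¹ ∧ ∀ j, j ≠ i → τ (x j) = x j := by
  classical
  obtain ⟨hgen, hfree⟩ := hX
  obtain ⟨f, hf⟩ := hfree (fun y => if (y : G) = x i then x i * (x (i + 1) * x (i + 1))⁻¹ else y)
  obtain ⟨g, hg⟩ := hfree (fun y => if (y : G) = x i then x i * (x (i + 1) * x (i + 1)) else y)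
  have hf1 : f (x i) = x i * (x (i + 1) * x (i + 1))⁻¹ := by
    simpa using hf ⟨x i, hx i⟩
  have hg1 : g (x i) = x i * (x (i + 1) * x (i + 1)) := by
    simpa using hg ⟨x i, hx i⟩
  have hf2 : ∀ y ∈ X, y ≠ x i → f y = y := by
    intro y hy hne
    simpa [hne] using hf ⟨y, hy⟩
  have hg2 : ∀ y ∈ X, y ≠ x i → g y = y := by
    intro y hy hne
    simpa [hne] using hg ⟨y, hy⟩
  have hne : x (i + 1) ≠ x i := fun h => by have := hinj h; omega
  have e1 : f.comp g = MonoidHom.id G := by
    apply ext_hom hgen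
    intro y hy
    by_cases h : y = x i
    · subst h
      simp [hg1, hf1, hf2 _ (hx (i + 1)) hne]
      group
    · simp [hg2 y hy h, hf2 y hy h]
  have e2 : g.comp f = MonoidHom.id G := by
    apply ext_hom hgen
    intro y hy
    by_cases h : y = x i
    · subst h
      simp [hg1, hf1, hg2 _ (hx (i + 1)) hne]
      group
    · simp [hg2 y hy h, hf2 y hy h]
  refine ⟨MonoidHom.toMulEquiv f g e2 e1, ?_, ?_⟩
  · exact hf1
  · intro j hj
    exact hf2 _ (hx j) (fun h => hj (hinj h))

theorem exists_sigma {X : Set G} (hX : IsRelFreeBasis G X) (x : ℕ → G) (hx : ∀ i, x i ∈ X)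
    (hinj : Function.Injective x) (n : ℕ) :
    ∃ σ : G ≃* G, (∀ i < n, σ (x i) = x i * (x (i + 1) * x (i + 1))⁻¹) ∧
      ∀ j, n ≤ j → σ (x j) = x j := by
  induction n with
  | zero => exact ⟨MulEquiv.refl G, fun i hi => absurd hi (by omega), fun j _ => rfl⟩
  | succ n ih =>
    obtain ⟨σ, h1, h2⟩ := ih
    obtain ⟨τ, h3, h4⟩ := exists_tau hX x hx hinj n
    refine ⟨τ.trans σ, ?_, ?_⟩
    · intro i hi
      rw [MulEquiv.trans_apply]
      by_cases h : i = n
      · subst h
        rw [h3, map_mul, map_inv, map_mul, h2 i le_rfl, h2 (i + 1) (by omega)]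
      · rw [h4 i h, h1 i (by omega)]
    · intro j hj
      rw [MulEquiv.trans_apply, h4 j (by omega), h2 j (by omega)]

/-- No torsion-free relatively free group of infinite rank is `ℵ₁`-homogeneous. -/
theorem result (G : Type u) [Group G] (htf : ∀ g : G, g ≠ 1 → ∀ n : ℕ, 1 ≤ n → g ^ n ≠ 1)
    (X : Set G) (hX : IsRelFreeBasis G X) (hinf : X.Infinite) :
    ¬ IsHomogeneousCard G (Cardinal.aleph 1) := by
  classical
  intro hhom
  obtain ⟨x', hx'⟩ : ∃ x' : ℕ → X, Function.Injective x' :=
    ⟨_, (hinf.natEmbedding X).injective⟩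
  set x : ℕ → G := fun i => (x' i : G) with hxdef
  have hx : ∀ i, x i ∈ X := fun i => (x' i).2
  have hinj : Function.Injective x := fun i j h => hx' (Subtype.ext h)
  set a : ℕ → G := fun i => x i * (x (i + 1) * x (i + 1))⁻¹ with ha
  -- `a` is injective
  have hainj : Function.Injective a := by
    intro i j hij
    obtain ⟨σ, h1, -⟩ := exists_sigma hX x hx hinj (i + j + 1)
    have e1 := h1 i (by omega)
    have e2 := h1 j (by omega)
    apply hinj
    apply σ.injective
    rw [e1, e2]
    exact hij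
  let A : Set G := Set.range a
  have hAc : Cardinal.mk A < Cardinal.aleph 1 := by
    have : A.Countable := Set.countable_range a
    have h1 : Cardinal.mk A ≤ Cardinal.aleph0 := Cardinal.le_aleph0_iff_set_countable.2 this
    exact lt_of_le_of_lt h1 (by
      rw [← Cardinal.aleph_zero]
      exact Cardinal.aleph_lt_aleph.2 zero_lt_one)
  have hidx : ∀ y : A, ∃ i, a i = y := fun y => y.2
  choose idx hidx using hidx
  let f : A → G := fun y => x (idx y)
  have hfa : ∀ i, f ⟨a i, ⟨i, rfl⟩⟩ = x i := by
    intro i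
    have := hidx ⟨a i, ⟨i, rfl⟩⟩
    simp only [f]
    rw [hainj this]
  have hfel : IsElementary G A f := by
    intro n φ v
    obtain ⟨N, hN⟩ : ∃ N, ∀ i : Fin n, idx (v i) < N := by
      refine ⟨(Finset.univ.sup (fun i => idx (v i))) + 1, fun i => ?_⟩
      have := Finset.le_sup (f := fun i => idx (v i)) (Finset.mem_univ i)
      exact Nat.lt_succ_of_le this
    obtain ⟨σ, h1, -⟩ := exists_sigma hX x hx hinj N
    rw [realize_auto σ φ (fun i => f (v i))]
    have : (fun i => σ (f (v i))) = fun i => (v i : G) := by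
      funext i
      simp only [f]
      rw [h1 _ (hN i)]
      exact hidx (v i)
    rw [this]
  obtain ⟨d, hd⟩ := hhom A hAc f hfel (x 0)
  -- `x 0 = nest a n (x n)`
  have hnest : ∀ n, x 0 = nest a n (x n) := by
    intro n
    induction n with
    | zero => rfl
    | succ n ih =>
      rw [ih]
      simp only [nest, ha]
      congr 1
      group
  have hdn : ∀ n, ∃ y, d = nest x n y := by
    intro n
    have h1 := hd n (psi n) (fun i => ⟨a i, ⟨i, rfl⟩⟩)
    have h2 : (psi n).Realize (Fin.cons (x 0) (fun i : Fin n => a i) : Fin (n + 1) → G) :=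
      (realize_psi n (x 0) a).2 ⟨x n, hnest n⟩
    have h3 := h1.1 h2
    have h4 : (fun i : Fin n => f (⟨a i, ⟨i, rfl⟩⟩ : A)) = fun i : Fin n => x i := by
      funext i
      exact hfa i
    rw [h4] at h3
    exact (realize_psi n d x).1 h3
  -- nontriviality of `x 0`
  have hx0 : x 0 ≠ 1 := by
    intro h0
    obtain ⟨φ, hφ⟩ := hX.2 (fun _ => x 1)
    have h1 : φ (x 0) = x 1 := hφ (x' 0)
    rw [h0, map_one] at h1
    have := hinj (h0.trans h1)
    omega
  -- the projections
  have hπ : ∀ N, ∃ π : G →* G, π (x N) = x 0 ∧ ∀ y ∈ X, y ≠ x N → π y = 1 := by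
    intro N
    obtain ⟨π, hπ⟩ := hX.2 (fun y => if (y : G) = x N then x 0 else 1)
    refine ⟨π, ?_, ?_⟩
    · have := hπ ⟨x N, hx N⟩
      rw [if_pos rfl] at this
      exact this
    · intro y hy hne
      simpa [hne] using hπ ⟨y, hy⟩
  choose π hπ1 hπ2 using hπ
  have hfin : ∀ g : G, ∃ M, ∀ N, M ≤ N → π N g = 1 := by
    intro g
    have hg : g ∈ Subgroup.closure X := by rw [hX.1]; trivial
    induction hg using Subgroup.closure_induction with
    | mem y hy =>
      by_cases h : ∃ i, y = x i
      · obtain ⟨i, rfl⟩ := h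
        exact ⟨i + 1, fun N hN => hπ2 N _ hy (fun h => by have := hinj h; omega)⟩
      · exact ⟨0, fun N _ => hπ2 N _ hy (fun h' => h ⟨N, h'⟩)⟩
    | one => exact ⟨0, fun N _ => map_one _⟩
    | mul y z _ _ h1 h2 =>
      obtain ⟨M1, h1⟩ := h1
      obtain ⟨M2, h2⟩ := h2
      exact ⟨M1 + M2, fun N hN => by rw [map_mul, h1 N (by omega), h2 N (by omega), one_mul]⟩
    | inv y _ h1 =>
      obtain ⟨M1, h1⟩ := h1
      exact ⟨M1, fun N hN => by rw [map_inv, h1 N hN, inv_one]⟩
  have hzp : ∀ (N : ℕ) (g : G), ∃ k : ℤ, π N g = x 0 ^ k := by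
    intro N g
    have hg : g ∈ Subgroup.closure X := by rw [hX.1]; trivial
    induction hg using Subgroup.closure_induction with
    | mem y hy =>
      by_cases h : y = x N
      · exact ⟨1, by rw [h, hπ1, zpow_one]⟩
      · exact ⟨0, by rw [hπ2 N y hy h, zpow_zero]⟩
    | one => exact ⟨0, by rw [map_one, zpow_zero]⟩
    | mul y z _ _ h1 h2 =>
      obtain ⟨k, h1⟩ := h1
      obtain ⟨l, h2⟩ := h2
      exact ⟨k + l, by rw [map_mul, h1, h2, zpow_add]⟩
    | inv y _ h1 =>
      obtain ⟨k, h1⟩ := h1
      exact ⟨-k, by rw [map_inv, h1, zpow_neg]⟩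
  obtain ⟨M, hM⟩ := hfin d
  obtain ⟨y, hy⟩ := hdn (M + 1)
  obtain ⟨k, hk⟩ := hzp M y
  have h1 := hM M le_rfl
  rw [hy, map_nest] at h1
  simp only [nest] at h1
  rw [nest_one _ M (fun i hi => hπ2 M _ (hx i) (fun h => by have := hinj h; omega)),
    hπ1, hk, ← zpow_add] at h1
  have h2 : x 0 * x 0 ^ (k + k) = x 0 ^ (1 + (k + k)) := by
    rw [zpow_add (x 0) 1 (k + k), zpow_one]
  rw [h2, ← zpow_natCast, ← zpow_mul] at h1
  have h3 : ∀ m : ℤ, m ≠ 0 → x 0 ^ m ≠ 1 := by
    intro m hm h
    have h4 : x 0 ^ m.natAbs = 1 := by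
      rcases Int.natAbs_eq m with h5 | h5
      · rw [← zpow_natCast, ← h5, h]
      · have : ((m.natAbs : ℕ) : ℤ) = -m := by omega
        rw [← zpow_natCast, this, zpow_neg, h, inv_one]
    exact htf (x 0) hx0 m.natAbs (by omega) h4
  apply h3 _ _ h1
  have h5 : ((2 ^ M : ℕ) : ℤ) ≠ 0 := by positivity
  exact mul_ne_zero (by omega) h5

end main

end Pool.Agent.Results.MP_735cdd_lc.NotAleph1Hom
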